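import Mathlib
import Pool.Agent.V11242.QC.NotLusin

/-!
# A space with a Fréchet–Urysohn `Q_p(X, ℝ)` which is neither countable nor Lusin
-/

set_option autoImplicit false

namespace Pool.Agent.Results.MP_aa6101_gt.NotLusin

open Pool.Agent.V11242.QC

/-- There is a Hausdorff space `X` with a countable open dense subset such that `X` is uncountable,
the space of all quasicontinuous real functions on `X` with the topology of pointwise convergence
is Fréchet–Urysohn, and `X` has an uncountable nowhere dense subset, so that `X` is not a
Lusin space. -/
theorem result : ∃ (X : Type) (_ : TopologicalSpace X), T2Space X ∧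
    (∃ D : Set X, D.Countable ∧ IsOpen D ∧ Dense D) ∧
    ¬ (Set.univ : Set X).Countable ∧ IsFU (Qp X) ∧
    (∃ N : Set X, IsNowhereDense N ∧ ¬ N.Countable) ∧ ¬ IsLusin X :=
  main_notLusin

end Pool.Agent.Results.MP_aa6101_gt.NotLusin
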